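import Pool.Agent.GWFix.Rank
import Pool.Agent.GWFix.Odd3

/-!
MP_8133f0_ag, Q1 (two-point genus zero Gromov-Witten invariants): what a counterexample must look
like formally, and formal counterexamples with Picard number one in every odd dimension.

`GenusZero` is the structure of `Pool.Agent.GWFix.Defs`: numbers with the Kontsevich-Manin
properties of the genus zero Gromov-Witten theory of a smooth projective variety. `OnePoint` is
Kollár's theorem for uniruled varieties, `TwoPoint` is Q1 with even further insertions.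
-/

open scoped BigOperators

namespace Pool.Agent.Results.MP_8133f0_ag.FormalCounterexamples

open Pool.Agent.GWFix

theorem result :
    -- a uniruled counterexample has even cohomology of dimension at least four, and quantum
    -- multiplication by the point class has rank at least two at the generic point of the
    -- family and at most half of the dimension at every point
    (∀ (κ ι ο : Type) [Fintype κ] [Fintype ι] [DecidableEq ι] [Fintype ο] [DecidableEq ο]
      (X : GenusZero κ ι ο), X.OnePoint → ¬ X.TwoPoint →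
      4 ≤ Fintype.card ι ∧
      ∀ (K : Type) [Field K] (ev : X.Coeff →+* K),
        2 * ((X.L (X.e X.pt)).map ev).rank ≤ Fintype.card ι ∧
        (Function.Injective ev → 2 ≤ ((X.L (X.e X.pt)).map ev).rank)) ∧
    -- formal theories of dimension `2m + 1` with basis `e_0 = 1, e_1 = D, ..., e_(2m+1) = pt`
    (∀ m d c : ℕ, 1 ≤ m → 1 ≤ d → 1 ≤ c → ∃ X : GenusZero (Fin 1) (Fin (2 * m + 2)) (Fin 0),
      X.one = 0 ∧ X.pt = Fin.last (2 * m + 1) ∧
      -- degree zero: the integral of `e_a e_b e_c` is `d` if `a, b, c` are odd with sum `2m+1`,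
      -- and `1` for the other `a, b, c` with sum `2m+1`
      (∀ μ, X.inv 0 μ = if ∑ i, μ i = 3 ∧ ∑ i : Fin (2 * m + 2), (i : ℕ) * μ i = 2 * m + 1 then
        (if ∑ i : Fin (2 * m + 2), (1 - (i : ℕ) % 2) * μ i = 0 then (d : ℚ) else 1) else 0) ∧
      (∀ a b, X.g a b = if (a : ℕ) + b = 2 * m + 1 then 1 else 0) ∧
      -- degrees are measured by `D`
      (∀ k i, X.deg k i = if (i : ℕ) = 1 then 1 else 0) ∧
      -- dimension constraint, the first Chern number is twice the degree
      (∀ β μ, X.inv β μ ≠ 0 →
        ∑ i : Fin (2 * m + 2), (i : ℕ) * μ i + 3 = (2 * m + 1) + 2 * β 0 + ∑ i, μ i) ∧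
      -- every invariant is a natural number
      (∀ β μ, ∃ k : ℕ, X.inv β μ = k) ∧
      -- `c` curves of degree one through a point
      X.inv (Finsupp.single 0 1) (Finsupp.single X.pt 1) = c ∧
      X.OnePoint ∧ ¬ X.TwoPoint) := by
  refine ⟨?_, ?_⟩
  · intro κ ι ο _ _ _ _ _ X h1 h2
    refine ⟨?_, fun K _ ev => ⟨X.rank_le h2 ev, fun hev => X.two_le_rank_pt h1 ev hev⟩⟩
    by_contra hc
    exact h2 (X.twoPoint_of_card_le h1 (by omega))
  · intro m d c hm _ hc
    refine ⟨Odd.theory m d c, rfl, rfl, ?_, ?_, fun _ _ => rfl,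
      Odd.dimension m d c, Odd.inv_nat m d c, Odd.through_point m d c, ?_,
      Odd.not_twoPoint m d c hm⟩
    · intro μ
      show Odd.inv m d c 0 μ = _
      unfold Odd.inv Odd.evs
      rw [if_pos (show (0 : Fin 1 →₀ ℕ) 0 = 0 from rfl)]
    · intro a b
      show ((Odd.hh m a b : ℤ) : ℚ) = _
      unfold Odd.hh
      split_ifs <;> simp
    · refine ⟨Finsupp.single 0 1, ?_, 0, ?_⟩
      · intro h
        have := congrArg (fun f : Fin 1 →₀ ℕ => f 0) h
        simp at this
      · show Odd.inv m d c _ (Finsupp.single (Fin.last (2 * m + 1)) 1 + 0) ≠ 0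
        rw [add_zero, Odd.through_point]
        exact_mod_cast (by omega : c ≠ 0)

end Pool.Agent.Results.MP_8133f0_ag.FormalCounterexamples
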