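import Pool.Agent.GWFix.Glue

/-!
MP_8133f0_ag, Q1 (two-point genus zero Gromov-Witten invariants): criteria for the strong form of
Q1 (nonzero genus zero invariants with any number of point insertions).

`X : GenusZero κ ι ο` is the genus zero Gromov-Witten theory of a smooth projective variety
(`Pool.Agent.GWFix.Defs`). `X.TwoPoint` is Q1 with even further insertions.
`X.fixedDomain n l` is the generating series of the genus `n` invariants with fixed domain curve
and insertions `e_a`, `a ∈ l`; see `fixedDomain_three`, `fixedDomain_glue` and
`fixedDomain_genus_succ` for the properties (three point functions, gluing, genus reduction)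
which characterise it.
-/

namespace Pool.Agent.Results.MP_8133f0_ag.GenusOneCriterion

open Pool.Agent.GWFix

theorem result {κ ι ο : Type} [Fintype κ] [Fintype ι] [DecidableEq ι] [Fintype ο]
    [DecidableEq ο] (X : GenusZero κ ι ο) :
    -- Q1 in terms of fixed-domain invariants; the strong form implies Q1
    (X.TwoPoint ↔ ∃ a, X.fixedDomain 0 [a, X.pt, X.pt] ≠ 0) ∧
    (X.ManyPoints → X.TwoPoint) ∧
    -- the strong form holds if quantum cohomology is reduced at one point of the family
    (∀ (K : Type) [CommRing K] [Nontrivial K] (ev : X.Coeff →+* K),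
      (∀ x : ι → K, X.mulAt ev x x = 0 → x = 0) → X.ManyPoints) ∧
    -- it holds if a fixed-domain invariant of positive genus with a point insertion is nonzero
    (∀ n l, 1 ≤ n → X.pt ∈ l → X.fixedDomain n l ≠ 0 → X.ManyPoints) ∧
    -- and without odd cohomology it is detected by genus one and two marked points
    (IsEmpty ο → (X.ManyPoints ↔ ∃ a, X.fixedDomain 1 [X.pt, a] ≠ 0)) := by
  have h4 : ∀ n l, 1 ≤ n → X.pt ∈ l → X.fixedDomain n l ≠ 0 → X.ManyPoints := by
    intro n l hn hl h
    rw [X.manyPoints_iff]
    intro hnil
    exact h (X.fixedDomain_eq_zero hnil n hn l hl)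
  refine ⟨X.twoPoint_iff', ?_, fun K _ _ ev h => X.manyPoints_of_reduced ev h, h4, ?_⟩
  · intro h
    rw [X.twoPoint_iff, ← X.exists_fixedDomain_zero_iff]
    exact h 2
  · intro hο
    constructor
    · intro h
      exact X.genus_one_of_not_isNilpotent (X.manyPoints_iff.mp h)
    · rintro ⟨a, ha⟩
      exact h4 1 [X.pt, a] le_rfl List.mem_cons_self ha

end Pool.Agent.Results.MP_8133f0_ag.GenusOneCriterion
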