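import Pool.Agent.GWFix.Spec3

/-!
MP_8133f0_ag, Q1 (two-point genus zero Gromov-Witten invariants): Q1 from the multiplicities of the
eigenvalues of one quantum multiplication operator and the locus swept out by minimal curves.

`X : GenusZero (Fin 1) ι ο` is the genus zero Gromov-Witten theory of a smooth projective variety
(`Pool.Agent.GWFix.Defs`), classes of curves being recorded by one ample degree.
`X.N β a b c = ⟨e_a, e_b, e_c⟩_β`. `X.swept γ β` is the class whose pairing with every `ε` is
`⟨pt, γ, ε⟩_β`; `X.cup α` is the matrix of cup product with `e_α`; `X.power D k` is the class `D^k`.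
`X.sweptIdeal b` is the ideal of the even cohomology ring generated by the classes
`v(γ) = X.swept γ (b γ)`. A ring homomorphism `ev` from the power series in `q`, `t` to a field `K`
is a `K`-valued point of the family of quantum products; `cf β s` is the coefficient of `q^β` in
`s` at `t = 0`. `X.opAt ev x` is the matrix of quantum multiplication by `Σ x_i e_i` at `ev`.
-/

open scoped BigOperators

namespace Pool.Agent.Results.MP_8133f0_ag.SpectralCriterion

open Pool.Agent.GWFix

theorem result {ι ο : Type} [Fintype ι] [DecidableEq ι] [Fintype ο] [DecidableEq ο]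
    (X : GenusZero (Fin 1) ι ο) (b : ι → ℕ)
    -- `⟨pt, γ, ε⟩_β = 0` for `β < b γ` and all `ε`
    (hb : ∀ γ, ∀ β < b γ, ∀ ε, X.N β X.pt γ ε = 0) :
    (∀ (K : Type) [Field K] [DecidableEq K] [IsAlgClosed K] (ev : X.Coeff →+* K),
      -- `ev` kills only series which vanish at `t = 0`
      (∀ s, ev s = 0 → ∀ β, cf β s = 0) → ∀ x : ι → K,
      -- (1) sum of `⌊(k-1)m/k⌋` over the multiplicities `m` of the eigenvalues
      (∀ k, 0 < k → ∑ μ ∈ (X.opAt ev x).charpoly.roots.toFinset,
          (k - 1) * (X.opAt ev x).charpoly.rootMultiplicity μ / k <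
            Module.finrank ℚ (X.sweptIdeal b) →
        ∃ a, X.fixedDomain 0 (a :: List.replicate k X.pt) ≠ 0) ∧
      -- (2) the case `k = 2`; at the small point (`ev` kills exactly the series which vanish at
      -- `t = 0`) with three insertions
      (∑ μ ∈ (X.opAt ev x).charpoly.roots.toFinset,
          (X.opAt ev x).charpoly.rootMultiplicity μ / 2 <
            Module.finrank ℚ (X.sweptIdeal b) →
        X.TwoPoint ∧ ((∀ s, (∀ β, cf β s = 0) → ev s = 0) →
          ∃ β, 0 < β ∧ ∃ ε, X.N β X.pt X.pt ε ≠ 0)) ∧
      -- (3) number of distinct eigenvalues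
      (Fintype.card ι < Module.finrank ℚ (X.sweptIdeal b) +
          (X.opAt ev x).charpoly.roots.toFinset.card →
        X.ManyPoints)) ∧
    -- (4) the ideal has dimension at least `c` if `⟨pt, γ, D^(c-1)⟩` is not zero in degree `b γ`
    -- for some `γ` and some class `D` which is nilpotent for the cup product
    (∀ (γ D : ι) (c : ℕ), 1 ≤ c → IsNilpotent (X.cup D) →
      ∑ ε, X.power D (c - 1) ε * X.N (b γ) X.pt γ ε ≠ 0 →
      c ≤ Module.finrank ℚ (X.sweptIdeal b)) := by
  refine ⟨fun K _ _ _ ev hev x => ⟨fun k hk h => X.spectral_pow b hb ev hev x k hk h,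
    fun h => X.spectral b hb ev hev x h,
    fun h => X.manyPoints_of_card_lt b hb ev hev x h⟩, ?_⟩
  intro γ D c hc hD h
  have h1 := X.le_finrank_sweptIdeal b γ D hD (c - 1)
    (X.vecMul_ne_zero_of_invariant γ D (b γ) (c - 1) h)
  omega

end Pool.Agent.Results.MP_8133f0_ag.SpectralCriterion
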