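import Pool.Agent.GWFix.Chain2

/-!
MP_8133f0_ag, Q1 (two-point genus zero Gromov-Witten invariants): Q1 from chains of two and of
three curves.

`X : GenusZero (Fin 1) ι ο` is the genus zero Gromov-Witten theory of a smooth projective variety
(`Pool.Agent.GWFix.Defs`), classes of curves being recorded by one ample degree.
`X.N β a b c = ⟨e_a, e_b, e_c⟩_β`, and `X.tri β v w a = ⟨v, w, a⟩_β` for classes `v`, `w`, `a`.
`X.swept γ β` is the class `v_β(γ)` whose pairing with every `ε` is `⟨pt, γ, ε⟩_β`; `X.cup α` is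
the matrix of cup product with `e_α`; `X.pair` is the Poincare pairing; `X.power D n` is the class
`D^n`. `X.chainSum γ δ B a` is the sum of `⟨v_β₁(γ), v_β₂(δ), a⟩_β₃` over `β₁ + β₂ + β₃ = B`.
`X.TwoPointLe B`: there is a nonzero invariant `⟨pt, pt, e⟩_β` with `0 < β ≤ B`.
-/

namespace Pool.Agent.Results.MP_8133f0_ag.ThreeChains

open Pool.Agent.GWFix

theorem result {ι ο : Type} [Fintype ι] [DecidableEq ι] [Fintype ο] [DecidableEq ο]
    (X : GenusZero (Fin 1) ι ο) :
    -- (1) chains of three curves: if some chain sum of degree `B` is not zero, then Q1 holds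
    (∀ (γ δ : ι) (B : ℕ) (a : ι → ℚ), X.chainSum γ δ B a ≠ 0 → X.TwoPointLe B) ∧
    -- (2) chains of two curves: if `∫ v_b(γ) v_b(δ) α_1 ... α_r` is not zero for some classes
    -- `α_i`, where `⟨pt, γ, ·⟩` and `⟨pt, δ, ·⟩` vanish in degrees below `b`, then Q1 holds
    (∀ (γ δ : ι) (b : ℕ), (∀ β < b, ∀ ε, X.N β X.pt γ ε = 0) →
      (∀ β < b, ∀ ε, X.N β X.pt δ ε = 0) → ∀ l : List ι,
      X.pair (Matrix.vecMul (X.swept γ b) (l.map X.cup).prod) (X.swept δ b) ≠ 0 →
      X.TwoPointLe (2 * b)) ∧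
    -- graded case: dimension `n`, `dg i` the degree of `e_i`, `D` a divisor class with
    -- `∫ D^n ≠ 0`, `c` the anticanonical degree of the curves of degree `b`
    (∀ (D : ι) (b n c : ℕ) (dg : ι → ℕ), dg X.one = 0 →
      (∀ a a', X.ginv a a' ≠ 0 → dg a + dg a' = n) →
      (∀ a e, X.N 0 D a e ≠ 0 → 1 + dg a + dg e = n) →
      (∀ e, X.N b X.pt D e ≠ 0 → n + 1 + dg e = n + c) →
      X.pair (X.power D n) (Pi.single X.one 1) ≠ 0 →
      -- one class in degree `n + 1 - c`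
      (∀ i i', dg i = n + 1 - c → dg i' = n + 1 - c → i = i') →
      -- (3) `2c ≥ n + 2`: two curves of degree `b`, the least degree with some `⟨pt, D, e⟩_b ≠ 0`
      (n + 2 ≤ 2 * c → (∀ β < b, ∀ ε, X.N β X.pt D ε = 0) →
        (∃ e, X.N b X.pt D e ≠ 0) → X.TwoPointLe (2 * b)) ∧
      -- (4) `(n+2)/3 ≤ c ≤ (n+1)/2`: three curves of degree `b`
      (0 < b → n + 2 ≤ 3 * c → 2 * c ≤ n + 1 →
        (∀ e, X.N (2 * b) X.pt D e ≠ 0 → n + 1 + dg e = n + 2 * c) →
        -- one class in degree `n + 1 - 2c`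
        (∀ i i', dg i = n + 1 - 2 * c → dg i' = n + 1 - 2 * c → i = i') →
        (∀ β < 2 * b, β ≠ b → ∀ ε, X.N β X.pt D ε = 0) →
        -- `⟨pt, D, D^(c-1)⟩_b ≠ 0`
        ∑ ε, X.power D (c - 1) ε * X.N b X.pt D ε ≠ 0 →
        -- `⟨pt, D, D^(c-1)⟩_b ⟨D^(n+1-c), D^(n+1-c), D^(3c-n-2)⟩_b +
        --   2 (∫ D^n) ⟨pt, D, D^(2c-1)⟩_2b ≠ 0`
        (∑ ε, X.power D (c - 1) ε * X.N b X.pt D ε) *
            X.tri b (X.power D (n + 1 - c)) (X.power D (n + 1 - c))
              (X.power D (3 * c - n - 2)) +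
          2 * X.pair (X.power D n) (Pi.single X.one 1) *
            (∑ ε, X.power D (2 * c - 1) ε * X.N (2 * b) X.pt D ε) ≠ 0 →
        X.TwoPointLe (3 * b))) :=
  ⟨fun γ δ B a h => X.twoPoint_of_chainSum γ δ B a h,
    fun γ δ b hγ hδ l h => X.twoPoint_of_swept γ δ b hγ hδ l h,
    fun D b n c dg hone hg hcup hdim htop hj =>
      ⟨fun hc hmin hex => by
          have hcn : c ≤ n + 1 := by
            obtain ⟨e, he⟩ := hex
            have h1 := hdim e he
            have h2 := X.dg_le n dg hg e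
            omega
          exact X.twoPoint_of_graded D b n c dg hone hg hcup hdim htop hc hcn hj hmin hex,
        fun hb hc hc2 hdim2 hj2 hmin hA hne =>
          X.twoPoint_of_three D b n c dg hb hone hg hcup hdim hdim2 htop hc hc2 hj hj2 hmin hA
            hne⟩⟩

end Pool.Agent.Results.MP_8133f0_ag.ThreeChains
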